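import Pool.Agent.Work.MP_223b32_tl.Interface

/-!
# GENM: the possible residues of `n` modulo `8`
-/

namespace Pool.Agent.Work.TL

open Finset Polynomial

namespace GENM

theorem ord {n : ℕ} (hn : n.Prime) (hg : Gen n) : Ord n := by
  classical
  have : Fact n.Prime := ⟨hn⟩
  have : NeZero n := ⟨hn.ne_zero⟩
  intro k hk hk2
  by_contra hcon
  have h1 : (2 : ZMod n) ^ k = 1 ∨ (2 : ZMod n) ^ k = -1 := by
    by_contra h
    push Not at h
    exact hcon h
  have hred : ∀ K : ℕ, (2 : ZMod n) ^ K = 2 ^ (K % k) ∨ (2 : ZMod n) ^ K = -2 ^ (K % k) := by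
    intro K
    have h2 : (2 : ZMod n) ^ K = 2 ^ (K % k) * (2 ^ k) ^ (K / k) := by
      rw [← pow_mul, ← pow_add, Nat.mod_add_div]
    rw [h2]
    rcases h1 with h3 | h3
    · left
      rw [h3, one_pow, mul_one]
    · rw [h3]
      rcases neg_one_pow_eq_or (ZMod n) (K / k) with h4 | h4
      · left
        rw [h4, mul_one]
      · right
        rw [h4, mul_neg, mul_one]
  have hsub : (univ : Finset (ZMod n)).erase 0 ⊆
      (range k).image (fun j => (2 : ZMod n) ^ j) ∪ (range k).image (fun j => -(2 : ZMod n) ^ j) := by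
    intro x hx
    obtain ⟨K, hK⟩ := hg x (ne_of_mem_erase hx)
    have hm : K % k ∈ range k := mem_range.2 (Nat.mod_lt _ hk)
    rw [mem_union, mem_image, mem_image]
    rcases hK with h2 | h2 <;> rcases hred K with h3 | h3
    · left
      exact ⟨K % k, hm, by rw [h2, h3]⟩
    · right
      exact ⟨K % k, hm, by rw [h2, h3]⟩
    · right
      exact ⟨K % k, hm, by rw [h2, h3]⟩
    · left
      exact ⟨K % k, hm, by rw [h2, h3, neg_neg]⟩
  have h2 := card_le_card hsub
  rw [card_erase_of_mem (mem_univ _), card_univ, ZMod.card] at h2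
  have h3 := (card_union_le ((range k).image (fun j => (2 : ZMod n) ^ j))
    ((range k).image (fun j => -(2 : ZMod n) ^ j))).trans (add_le_add card_image_le card_image_le)
  rw [card_range] at h3
  omega

end GENM

/-- GENM. -/
theorem stmt_GENM : Stmt_GENM := by
  intro n hn hn2 hg
  have : Fact n.Prime := ⟨hn⟩
  have hord := GENM.ord hn hg
  have hodd : n % 2 = 1 := hn.eq_two_or_odd.resolve_left hn2
  have hn3 : 3 ≤ n := by
    have := hn.two_le
    omega
  have h20 : (2 : ZMod n) ≠ 0 := by
    intro h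
    have h1 : ((2 : ℕ) : ZMod n) = 0 := by exact_mod_cast h
    rw [ZMod.natCast_eq_zero_iff] at h1
    have := Nat.le_of_dvd (by norm_num) h1
    omega
  have hsq := ZMod.exists_sq_eq_two_iff (p := n) hn2
  have heu := ZMod.euler_criterion n h20
  have hpm := ZMod.pow_div_two_eq_neg_one_or_one n h20
  refine ⟨hord, ?_, ?_⟩
  · have h8 : n % 8 = 1 ∨ n % 8 = 3 ∨ n % 8 = 5 ∨ n % 8 = 7 := by omega
    rcases h8 with h8 | h8
    · exfalso
      have h1 : (2 : ZMod n) ^ (n / 2) = 1 := heu.1 (hsq.2 (Or.inl h8))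
      have h2 : n / 2 = 2 * (n / 4) := by omega
      rw [h2, mul_comm, pow_mul, sq_eq_one_iff] at h1
      have h3 := hord (n / 4) (by omega) (by omega)
      rcases h1 with h1 | h1
      · exact h3.1 h1
      · exact h3.2 h1
    · exact h8
  · unfold eta
    split_ifs with h7
    · rw [heu.1 (hsq.2 (Or.inr h7))]
      simp
    · rcases hpm with h1 | h1
      · rcases hsq.1 (heu.2 h1) with h2 | h2
        · exfalso
          have h3 : n / 2 = 2 * (n / 4) := by omega
          rw [h3, mul_comm, pow_mul, sq_eq_one_iff] at h1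
          have h4 := hord (n / 4) (by omega) (by omega)
          rcases h1 with h1 | h1
          · exact h4.1 h1
          · exact h4.2 h1
        · exact absurd h2 h7
      · rw [h1]
        simp

end Pool.Agent.Work.TL
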