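import Pool.Agent.Work.MP_223b32_tl.Interface

/-!
# ORBX: the arrangement of the eigenvalues along the orbit of `2`
-/

namespace Pool.Agent.Work.TL

open Finset Polynomial Pool.Agent.Work.TC

namespace ORBX

theorem cast_odd {q : ℕ} (hq : Odd q) : (q : Om) = 1 := by
  obtain ⟨u, hu⟩ := hq
  rw [hu]
  push_cast
  have : (2 : Om) = 0 := CharTwo.two_eq_zero
  rw [this]
  ring

/-- powers of `ζ` with exponents `2 ^ i` -/
theorem pow_eq {n : ℕ} (hn : 0 < n) {ζ : Om} (ho : orderOf ζ = n) {a b : ℕ} :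
    ζ ^ 2 ^ a = ζ ^ 2 ^ b ↔ (2 : ZMod n) ^ a = 2 ^ b := by
  have hf : IsOfFinOrder ζ := orderOf_pos_iff.1 (by rw [ho]; exact hn)
  rw [hf.pow_eq_pow_iff_modEq, ho, ← ZMod.natCast_eq_natCast_iff]
  push_cast
  rfl

theorem pow_mul_eq {n : ℕ} {ζ : Om} (ho : orderOf ζ = n) {a b : ℕ} :
    ζ ^ 2 ^ a * ζ ^ 2 ^ b = 1 ↔ (2 : ZMod n) ^ a = -2 ^ b := by
  rw [← pow_add, ← orderOf_dvd_iff_pow_eq_one, ho, ← ZMod.natCast_eq_zero_iff]
  push_cast
  rw [add_eq_zero_iff_eq_neg]

/-- different exponents below `g` give different residues up to sign -/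
theorem ord_inj {n g : ℕ} (hn : n.Prime) (hng : n = 2 * g + 1) (hord : Ord n) {i j : ℕ}
    (hi : i < g) (hj : j < g) :
    ((2 : ZMod n) ^ i = 2 ^ j → i = j) ∧ (2 : ZMod n) ^ i ≠ -2 ^ j := by
  have : Fact n.Prime := ⟨hn⟩
  have h20 : (2 : ZMod n) ≠ 0 := by
    intro h
    have h1 : ((2 : ℕ) : ZMod n) = 0 := by exact_mod_cast h
    rw [ZMod.natCast_eq_zero_iff] at h1
    have := Nat.le_of_dvd (by norm_num) h1
    omega
  have key : ∀ i j : ℕ, i < j → j < g → (2 : ZMod n) ^ i ≠ 2 ^ j ∧ (2 : ZMod n) ^ i ≠ -2 ^ j := by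
    intro i j hij hj
    obtain ⟨d, rfl⟩ := Nat.exists_eq_add_of_lt hij
    have h1 := hord (d + 1) (by omega) (by omega)
    have hp : (2 : ZMod n) ^ i ≠ 0 := pow_ne_zero _ h20
    have e : (2 : ZMod n) ^ (i + d + 1) = 2 ^ i * 2 ^ (d + 1) := by rw [add_assoc, pow_add]
    rw [e]
    constructor
    · intro h
      apply h1.1
      have h2 : (2 : ZMod n) ^ i * 2 ^ (d + 1) = 2 ^ i * 1 := by rw [mul_one]; exact h.symm
      exact mul_left_cancel₀ hp h2
    · intro h
      apply h1.2
      have h2 : (2 : ZMod n) ^ i * 2 ^ (d + 1) = 2 ^ i * (-1) := by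
        linear_combination h
      exact mul_left_cancel₀ hp h2
  rcases lt_trichotomy i j with h | h | h
  · exact ⟨fun h1 => absurd h1 (key i j h hj).1, (key i j h hj).2⟩
  · subst h
    refine ⟨fun _ => rfl, fun h1 => ?_⟩
    have h2 : (2 : ZMod n) * 2 ^ i = 0 := by linear_combination h1
    rcases mul_eq_zero.1 h2 with h3 | h3
    · exact h20 h3
    · exact pow_ne_zero _ h20 h3
  · refine ⟨fun h1 => absurd h1.symm (key j i h hi).1, fun h1 => ?_⟩
    apply (key j i h hi).2
    linear_combination h1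

/-- every nontrivial root of unity is the reduction of an eigenvalue -/
theorem surj {n : ℕ} (hn : n.Prime) (y : Fin (n - 1) → Om) (h1 : ∀ i, y i ^ n = 1 ∧ y i ≠ 1)
    (h2 : Function.Injective y) {ζ : Om} (h3 : ζ ^ n = 1) (h4 : ζ ≠ 1) : ∃ i, y i = ζ := by
  classical
  have hsub : (univ : Finset (Fin (n - 1))).image y ⊆ ((nthRoots n (1 : Om)).toFinset).erase 1 := by
    intro x hx
    obtain ⟨i, _, rfl⟩ := mem_image.1 hx
    rw [mem_erase, Multiset.mem_toFinset, mem_nthRoots hn.pos]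
    exact ⟨(h1 i).2, (h1 i).1⟩
  have hone : (1 : Om) ∈ (nthRoots n (1 : Om)).toFinset := by
    rw [Multiset.mem_toFinset, mem_nthRoots hn.pos, one_pow]
  have hc : ((nthRoots n (1 : Om)).toFinset.erase 1).card ≤
      ((univ : Finset (Fin (n - 1))).image y).card := by
    rw [card_erase_of_mem hone, card_image_of_injective _ h2, card_univ, Fintype.card_fin]
    exact Nat.sub_le_sub_right ((Multiset.toFinset_card_le _).trans (card_nthRoots n 1)) 1
  have heq := eq_of_subset_of_card_le hsub hc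
  have hz : ζ ∈ ((nthRoots n (1 : Om)).toFinset).erase 1 := by
    rw [mem_erase, Multiset.mem_toFinset, mem_nthRoots hn.pos]
    exact ⟨h4, h3⟩
  rw [← heq, mem_image] at hz
  obtain ⟨i, _, hi⟩ := hz
  exact ⟨i, hi⟩

end ORBX

/-- ORBX. -/
theorem stmt_ORBX : Stmt_ORBX := by
  intro ρ σ hσ n q hn hn2 hq hord η hη htwo r β' w' hpow hw hroot hinj hmul haut hsym ζ hζ hζ1
  have : Fact n.Prime := ⟨hn⟩
  have hodd : n % 2 = 1 := hn.eq_two_or_odd.resolve_left hn2
  obtain ⟨g, hg⟩ : ∃ g, g = n / 2 := ⟨_, rfl⟩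
  have hng : n = 2 * g + 1 := by omega
  rw [← hg] at htwo ⊢
  have ho : orderOf ζ = n := orderOf_eq_prime hζ hζ1
  have hρq : ρ (q : AA) = 1 := by
    rw [map_natCast]
    exact ORBX.cast_odd hq
  have hinj' : ∀ i j, ρ (β' i) = ρ (β' j) → i = j := fun i j h => hinj h
  obtain ⟨i₀, hi₀⟩ := ORBX.surj hn (fun i => ρ (β' i)) hroot hinj hζ hζ1
  -- the orbit
  obtain ⟨ja, hja0, hja⟩ : ∃ ja : ℕ → Fin (n - 1), ja 0 = i₀ ∧
      ∀ i, β' (ja (i + 1)) = σ (β' (ja i)) := by
    choose f hf using haut σ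
    refine ⟨fun i => f^[i] i₀, rfl, fun i => ?_⟩
    change β' (f^[i + 1] i₀) = σ (β' (f^[i] i₀))
    rw [Function.iterate_succ_apply', ← hf]
  choose jb' hjb' using hmul
  set al : ℕ → AA := fun i => β' (ja i) with hal
  set be : ℕ → AA := fun i => β' (jb' (ja i)) with hbe
  have hmul' : ∀ i, al i * be i = q := fun i => hjb' _
  have hred : ∀ i, ρ (al i) = ζ ^ 2 ^ i := by
    intro i
    induction i with
    | zero =>
      rw [pow_zero, pow_one, hal]
      simp only [hja0]
      exact hi₀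
    | succ i ih =>
      have h1 : al (i + 1) = σ (al i) := hja i
      rw [h1, hσ, ih, ← pow_mul, pow_succ]
  have hredb : ∀ i, ρ (be i) = (ζ ^ 2 ^ i)⁻¹ := by
    intro i
    have h1 := congrArg ρ (hmul' i)
    rw [map_mul, hρq, hred] at h1
    exact eq_inv_of_mul_eq_one_right h1
  have hζ0 : ζ ≠ 0 := by
    rintro rfl
    rw [zero_pow hn.ne_zero] at hζ
    exact zero_ne_one hζ
  have hinjab : ∀ i < g, ∀ j < g, (al i = al j → i = j) ∧ al i ≠ be j := by
    intro i hi j hj
    have h1 := ORBX.ord_inj hn hng hord hi hj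
    constructor
    · intro h
      have h2 := congrArg ρ h
      rw [hred, hred] at h2
      exact h1.1 ((ORBX.pow_eq hn.pos ho).1 h2)
    · intro h
      have h2 := congrArg ρ h
      rw [hred, hredb] at h2
      apply h1.2
      rw [← ORBX.pow_mul_eq ho, h2]
      exact inv_mul_cancel₀ (pow_ne_zero _ hζ0)
  have hcover : ∀ j, ∃ i < g, β' j = al i ∨ β' j = be i := by
    have hinjF : Function.Injective (fun x : Fin g ⊕ Fin g =>
        Sum.elim (fun i : Fin g => ja i) (fun i : Fin g => jb' (ja i)) x) := by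
      rintro (i | i) (j | j) h
      · simp only [Sum.elim_inl] at h
        have h1 : al i = al j := congrArg β' h
        exact congrArg _ (Fin.ext ((hinjab i i.2 j j.2).1 h1))
      · simp only [Sum.elim_inl, Sum.elim_inr] at h
        exact absurd (congrArg β' h) (hinjab i i.2 j j.2).2
      · simp only [Sum.elim_inl, Sum.elim_inr] at h
        exact absurd (congrArg β' h.symm) (hinjab j j.2 i i.2).2
      · simp only [Sum.elim_inr] at h
        have h1 : ρ (be i) = ρ (be j) := congrArg (fun x => ρ (β' x)) h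
        rw [hredb, hredb, inv_inj, ORBX.pow_eq hn.pos ho] at h1
        exact congrArg _ (Fin.ext ((ORBX.ord_inj hn hng hord i.2 j.2).1 h1))
    have hbij := (Fintype.bijective_iff_injective_and_card _).2 ⟨hinjF, by
      rw [Fintype.card_sum, Fintype.card_fin, Fintype.card_fin]; omega⟩
    intro j
    obtain ⟨x, hx⟩ := hbij.2 j
    rcases x with i | i
    · refine ⟨i, i.2, Or.inl ?_⟩
      rw [← hx]
      rfl
    · refine ⟨i, i.2, Or.inr ?_⟩
      rw [← hx]
      rfl
  refine ⟨al, be, fun i => w' (ja i), fun i => w' (jb' (ja i)), ?_, hcover⟩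
  refine
    { prime := hn
      two_g := hng
      odd_q := hq
      ord := hord
      two := htwo
      zeta := hζ
      zeta_ne := hζ1
      frob := hσ
      shift := hja
      red := hred
      pow_al := fun i => hpow _
      red_w := fun i => ?_
      mul := hmul'
      pow_be := fun i => hpow _
      red_v := fun i => ?_
      per := ?_
      inj := hinjab
      aut := fun τ i => ?_
      sym := fun k hk1 hk2 => hsym k hk1 (by omega) }
  · rw [hw, ← hred i]
  · rw [hw, ← hredb i]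
  · rcases hη with h1 | h1
    · left
      refine ⟨h1, fun i => ?_⟩
      rw [h1] at htwo
      have h2 : ρ (al (i + g)) = ρ (al i) := by
        rw [hred, hred, ORBX.pow_eq hn.pos ho, pow_add, htwo]
        simp
      exact congrArg β' (hinj' _ _ h2)
    · right
      refine ⟨h1, fun i => ?_⟩
      rw [h1] at htwo
      have h2 : ρ (al (i + g)) = ρ (be i) := by
        rw [hred, hredb]
        apply eq_inv_of_mul_eq_one_left
        rw [ORBX.pow_mul_eq ho, pow_add, htwo]
        simp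
      exact congrArg β' (hinj' _ _ h2)
  · obtain ⟨j, hj⟩ := haut τ (ja i)
    obtain ⟨i', hi', h⟩ := hcover j
    refine ⟨i', hi', ?_⟩
    rw [← hj] at h
    exact h

end Pool.Agent.Work.TL
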